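import Pool.Agent.Lib.MP_1a91b9_ntH.D.Exp

/-!
# MP_1a91b9_nt, several twists over `Q(sqrt -3)`, part D: the engine with several more characters

`g q j`, `j : κ`, are additional characters (the symbol of `2`, the symbols of the primes of the
border). The linear term of a label `l` is `tr (gam l * A) + ∑ j, del l j * G j`.
-/

set_option autoImplicit false

namespace Pool.Agent.Lib.MP_1a91b9_ntP

open Finset Pool.Agent.Lib.MP_1a91b9_ntH

noncomputable section

/-- The symbols, the classes modulo 4 and several more characters. -/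
structure DatG (ι κ : Type) extends Dat ι where
  g : ι → κ → ZMod 2

/-- A label system with more linear terms. -/
structure LSysG (L κ : Type) extends LSys L where
  del : L → κ → ZMod 2

section Sys

variable {ι : Type} [DecidableEq ι] {κ : Type} [Fintype κ]

/-- The additional linear term. -/
def DatG.lg (D : DatG ι κ) (e : κ → ZMod 2) (q : ι) : ZMod 2 := ∑ j, e j * D.g q j

/-- The additional linear term on a squarefree integer. -/
def DatG.lG (D : DatG ι κ) (e : κ → ZMod 2) (S : Finset ι) : ZMod 2 := ∑ q ∈ S, D.lg e q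

/-- The quadratic characters. -/
def DatG.ch (D : DatG ι κ) (T : Finset ι) (c : F4) (e : κ → ZMod 2) (q : ι) : ℝ :=
  if q ∈ T then 0 else sg (F4.tr (c * D.a q) + D.lg e q + ∑ p ∈ T, D.s q p)

/-- The nontrivial quadratic characters have bounded Euler products. -/
def DatG.CB (D : DatG ι κ) [PS ι] (C : ℝ) : Prop :=
  ∀ (T : Finset ι) (c : F4) (e : κ → ZMod 2), (T ≠ ∅ ∨ c ≠ 0 ∨ e ≠ 0) →
    CharB (D.ch T c e) (C * (1 + Real.log (nm T)))

/-- The mean values of the nontrivial characters on squarefree integers are zero. -/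
def DatG.H3 (D : DatG ι κ) [PS ι] : Prop :=
  ∀ (c : F4) (e : κ → ZMod 2), (c ≠ 0 ∨ e ≠ 0) → ∀ ε : ℝ, 0 < ε → ∃ X₀ : ℕ, ∀ X : ℕ, X₀ ≤ X →
    |∑ S ∈ Sx ι X, sg (F4.tr (c * D.A S) + D.lG e S)| ≤ ε * X

/-- All the hypotheses on the system. -/
structure DatG.OK (D : DatG ι κ) [PS ι] : Prop where
  rec_ : D.Rec
  cheb : ∃ C, Cheb ι C
  zt : ∃ C, Zt ι C
  cb : ∃ C, D.CB C
  h3 : D.H3
  bl : ∃ C K c, 0 < c ∧ D.BL C K c

omit [DecidableEq ι] in
theorem lg_add (D : DatG ι κ) (e f : κ → ZMod 2) (q : ι) : D.lg (e + f) q = D.lg e q + D.lg f q := by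
  unfold DatG.lg
  rw [← sum_add_distrib]
  exact sum_congr rfl fun j _ => add_mul _ _ _

omit [DecidableEq ι] in
theorem lg_zero (D : DatG ι κ) (q : ι) : D.lg 0 q = 0 := by
  unfold DatG.lg
  exact sum_eq_zero fun j _ => zero_mul _

omit [DecidableEq ι] in
theorem lG_zero (D : DatG ι κ) (S : Finset ι) : D.lG 0 S = 0 := by
  unfold DatG.lG
  exact sum_eq_zero fun q _ => lg_zero D q

/-- The system without the additional characters satisfies the hypotheses of phase 1. -/
theorem DatG.OK.toOK {D : DatG ι κ} [PS ι] (h : D.OK) : D.toDat.OK where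
  rec_ := h.rec_
  cheb := h.cheb
  zt := h.zt
  cb := by
    obtain ⟨C, hC⟩ := h.cb
    refine ⟨C, fun T c hT => ?_⟩
    have h1 := hC T c 0 (by tauto)
    have h2 : D.ch T c 0 = D.toDat.ch T c := by
      funext q
      unfold DatG.ch Dat.ch
      rw [lg_zero, add_zero]
    rwa [h2] at h1
  h3 := by
    intro c hc ε hε
    obtain ⟨X₀, h1⟩ := h.h3 c 0 (Or.inl hc) ε hε
    refine ⟨X₀, fun X hX => ?_⟩
    have h2 := h1 X hX
    simp only [lG_zero, add_zero] at h2
    exact h2
  bl := h.bl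

theorem lG_union (D : DatG ι κ) (e : κ → ZMod 2) {S T : Finset ι} (h : Disjoint S T) :
    D.lG e (S ∪ T) = D.lG e S + D.lG e T :=
  sum_union h

omit [DecidableEq ι] in
theorem lG_empty (D : DatG ι κ) (e : κ → ZMod 2) : D.lG e ∅ = 0 := sum_empty

variable {L : Type} [Fintype L] [DecidableEq L]

/-- The additional exponent of a family. -/
def DatG.xx (D : DatG ι κ) (Λ : LSysG L κ) (d : L → Finset ι) : ZMod 2 := ∑ l, D.lG (Λ.del l) (d l)

/-- The exponent of a family. -/
def DatG.ee (D : DatG ι κ) (Λ : LSysG L κ) (d : L → Finset ι) : ZMod 2 :=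
  D.toDat.ee Λ.toLSys d + D.xx Λ d

/-- The summand after expansion. -/
def DatG.FF (D : DatG ι κ) (Λ : LSysG L κ) (d : L → Finset ι) : ℝ :=
  ((Λ.m : ℝ)⁻¹) ^ (uni d).card * sg (D.ee Λ d)

/-- The exponent of a labelling of `S`. -/
def DatG.eS (D : DatG ι κ) (Λ : LSysG L κ) (S : Finset ι) (f : S → L) : ZMod 2 :=
  D.toDat.eS Λ.toLSys S f + ∑ j : S, D.lg (Λ.del (f j)) j

open Classical in
/-- The contribution of a maximal unlinked set. -/
def LSysG.cU (Λ : LSysG L κ) (U : Finset L) : ℝ :=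
  if ∀ l ∈ U, Λ.del l = 0 then Λ.toLSys.cU U else 0

omit [DecidableEq L] in
theorem FF_eq (D : DatG ι κ) (Λ : LSysG L κ) (d : L → Finset ι) :
    D.FF Λ d = D.toDat.FF Λ.toLSys d * sg (D.xx Λ d) := by
  unfold DatG.FF Dat.FF DatG.ee
  rw [sgD_add]
  ring

omit [DecidableEq L] in
theorem FF_abs (D : DatG ι κ) (Λ : LSysG L κ) (d : L → Finset ι) :
    |D.FF Λ d| = |D.toDat.FF Λ.toLSys d| := by
  rw [FF_eq, abs_mul, sgD_abs, mul_one]

end Sys

end

end Pool.Agent.Lib.MP_1a91b9_ntP
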