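import Pool.Agent.Lib.MP_1a91b9_ntQ.D.ExtB

/-!
# MP_1a91b9_nt, several twists over `Q(sqrt -3)`, part D: mean values prime to a finite set

If a multiplicative function with values in `[-1, 1]` has mean value zero on the squarefree
integers, then it has mean value zero on the squarefree integers prime to a finite set.
-/

set_option autoImplicit false
set_option linter.unusedSectionVars false

namespace Pool.Agent.Lib.MP_1a91b9_ntP

open Finset Pool.Agent.Lib.MP_1a91b9_ntH Pool.Agent.Lib.MP_1a91b9_ntQ

noncomputable section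

variable {ι : Type} [DecidableEq ι] [PS ι]

/-- The sum of a multiplicative function on the squarefree integers prime to `B`. -/
def smB (f : ι → ℝ) (B : Finset ι) (X : ℕ) : ℝ :=
  ∑ S ∈ (Sx ι X).filter (fun S => Disjoint S B), ∏ q ∈ S, f q

theorem smB_zero (f : ι → ℝ) (B : Finset ι) : smB f B 0 = 0 := by
  unfold smB
  refine sum_eq_zero fun S hS => ?_
  have h1 := mem_Sx.1 (mem_filter.1 hS).1
  have h2 := one_le_nm S
  omega

/-- The recursion. -/
theorem smB_insert (f : ι → ℝ) (B : Finset ι) {b : ι} (hb : b ∉ B) (X : ℕ) :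
    smB f B X = smB f (insert b B) X + f b * smB f (insert b B) (X / PS.N b) := by
  classical
  unfold smB
  rw [← sum_filter_add_sum_filter_not ((Sx ι X).filter fun S => Disjoint S B) (fun S => b ∉ S)]
  congr 1
  · refine sum_congr ?_ fun _ _ => rfl
    ext S
    rw [mem_filter, mem_filter, mem_filter, disjoint_insert_right]
    tauto
  · rw [mul_sum]
    refine sum_nbij' (fun S => S.erase b) (fun S => insert b S) ?_ ?_ ?_ ?_ ?_
    · intro S hS
      rw [mem_filter, mem_filter, not_not] at hS
      obtain ⟨⟨h1, h2⟩, h3⟩ := hS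
      rw [mem_filter, disjoint_insert_right]
      refine ⟨?_, notMem_erase _ _, disjoint_of_subset_left (erase_subset _ _) h2⟩
      rw [mem_Sx] at h1 ⊢
      rw [Nat.le_div_iff_mul_le (by have := PS.two_le b; omega)]
      refine le_trans (le_of_eq ?_) h1
      unfold nm
      rw [mul_comm, mul_prod_erase _ _ h3]
    · intro S hS
      rw [mem_filter, disjoint_insert_right] at hS
      obtain ⟨h1, h2, h3⟩ := hS
      rw [mem_filter, mem_filter, not_not]
      refine ⟨⟨?_, ?_⟩, mem_insert_self _ _⟩
      · rw [mem_Sx] at h1 ⊢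
        rw [Nat.le_div_iff_mul_le (by have := PS.two_le b; omega)] at h1
        refine le_trans (le_of_eq ?_) h1
        unfold nm
        rw [prod_insert h2, mul_comm]
      · rw [disjoint_insert_left]
        exact ⟨hb, h3⟩
    · intro S hS
      rw [mem_filter, not_not] at hS
      exact insert_erase hS.2
    · intro S hS
      rw [mem_filter, disjoint_insert_right] at hS
      exact erase_insert hS.2.1
    · intro S hS
      rw [mem_filter, not_not] at hS
      exact (mul_prod_erase _ _ hS.2).symm

/-- Mean value zero on the integers prime to `B`. -/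
def MzR (f : ι → ℝ) (B : Finset ι) : Prop :=
  ∀ ε : ℝ, 0 < ε → ∃ X₀ : ℕ, ∀ X : ℕ, X₀ ≤ X → |smB f B X| ≤ ε * X

theorem smB_abs {f : ι → ℝ} (hf : ∀ q, |f q| ≤ 1) (B : Finset ι) (X : ℕ) :
    |smB f B X| ≤ (Sx ι X).card := by
  unfold smB
  refine (abs_sum_le_sum_abs _ _).trans ?_
  calc ∑ S ∈ (Sx ι X).filter (fun S => Disjoint S B), |∏ q ∈ S, f q|
      ≤ ∑ _S ∈ (Sx ι X).filter (fun S => Disjoint S B), (1 : ℝ) := by
        refine sum_le_sum fun S _ => ?_
        rw [abs_prod]
        exact prod_le_one (fun q _ => abs_nonneg _) fun q _ => hf q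
    _ = (((Sx ι X).filter (fun S => Disjoint S B)).card : ℝ) := by
        rw [sum_const, nsmul_eq_mul, mul_one]
    _ ≤ (Sx ι X).card := Nat.cast_le.2 (card_le_card (filter_subset _ _))

theorem Sx_mono {X Y : ℕ} (h : X ≤ Y) : Sx ι X ⊆ Sx ι Y := by
  intro S hS
  rw [mem_Sx] at hS ⊢
  exact hS.trans h

theorem MzR.insert {f : ι → ℝ} (hf : ∀ q, |f q| ≤ 1) {B : Finset ι} (h : MzR f B) {b : ι}
    (hb : b ∉ B) : MzR f (insert b B) := by
  intro ε hε
  obtain ⟨X0, h0⟩ := h (ε / 4) (by positivity)
  set C : ℝ := ((Sx ι X0).card : ℝ) with hC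
  have hC0 : 0 ≤ C := Nat.cast_nonneg _
  have h1 : ∀ X : ℕ, |smB f B X| ≤ ε / 4 * X + C := by
    intro X
    by_cases hX : X0 ≤ X
    · have := h0 X hX
      linarith
    · have h2 : |smB f B X| ≤ C := (smB_abs hf B X).trans
        (Nat.cast_le.2 (card_le_card (Sx_mono (by omega))))
      have : 0 ≤ ε / 4 * X := by positivity
      linarith
  have h2 : ∀ X : ℕ, |smB f (Insert.insert b B) X| ≤ ε / 2 * X + 4 * C * Real.sqrt X := by
    intro X
    induction X using Nat.strong_induction_on with
    | _ X ih =>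
      rcases Nat.eq_zero_or_pos X with rfl | hX
      · rw [smB_zero, abs_zero]
        positivity
      · have hN := PS.two_le b
        have hlt : X / PS.N b < X := Nat.div_lt_self hX (by omega)
        have h3 := ih _ hlt
        have h4 : smB f (Insert.insert b B) X =
            smB f B X - f b * smB f (Insert.insert b B) (X / PS.N b) := by
          rw [smB_insert f B hb X]
          ring
        have h5 : |smB f (Insert.insert b B) X| ≤
            |smB f B X| + |smB f (Insert.insert b B) (X / PS.N b)| := by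
          rw [h4]
          refine (abs_sub _ _).trans (add_le_add_right ?_ _)
          rw [abs_mul]
          calc |f b| * |smB f (Insert.insert b B) (X / PS.N b)|
              ≤ 1 * |smB f (Insert.insert b B) (X / PS.N b)| :=
                mul_le_mul_of_nonneg_right (hf b) (abs_nonneg _)
            _ = _ := one_mul _
        have hXr : (1 : ℝ) ≤ X := by exact_mod_cast hX
        have h6 : ((X / PS.N b : ℕ) : ℝ) ≤ X / 2 := by
          have h7 : X / PS.N b ≤ X / 2 := Nat.div_le_div_left hN (by norm_num)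
          calc ((X / PS.N b : ℕ) : ℝ) ≤ ((X / 2 : ℕ) : ℝ) := by exact_mod_cast h7
            _ ≤ X / 2 := Nat.cast_div_le
        have h8 : Real.sqrt ((X / PS.N b : ℕ) : ℝ) ≤ 3 / 4 * Real.sqrt X := by
          calc Real.sqrt ((X / PS.N b : ℕ) : ℝ) ≤ Real.sqrt (X / 2) := Real.sqrt_le_sqrt h6
            _ ≤ Real.sqrt ((3 / 4) ^ 2 * X) := by
                apply Real.sqrt_le_sqrt
                nlinarith
            _ = 3 / 4 * Real.sqrt X := by
                rw [Real.sqrt_mul (by positivity), Real.sqrt_sq (by norm_num)]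
        have h9 : 1 ≤ Real.sqrt X := Real.one_le_sqrt.2 hXr
        have h10 := h1 X
        have h11 : ε / 2 * ((X / PS.N b : ℕ) : ℝ) ≤ ε / 4 * X := by
          calc ε / 2 * ((X / PS.N b : ℕ) : ℝ) ≤ ε / 2 * (X / 2) :=
                mul_le_mul_of_nonneg_left h6 (by positivity)
            _ = ε / 4 * X := by ring
        have h12 : 4 * C * Real.sqrt ((X / PS.N b : ℕ) : ℝ) ≤ 3 * C * Real.sqrt X := by
          calc 4 * C * Real.sqrt ((X / PS.N b : ℕ) : ℝ) ≤ 4 * C * (3 / 4 * Real.sqrt X) :=
                mul_le_mul_of_nonneg_left h8 (by positivity)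
            _ = 3 * C * Real.sqrt X := by ring
        have h13 : C ≤ C * Real.sqrt X := le_mul_of_one_le_right hC0 h9
        calc |smB f (Insert.insert b B) X| ≤ _ := h5
          _ ≤ (ε / 4 * X + C) + (ε / 2 * ((X / PS.N b : ℕ) : ℝ) +
                4 * C * Real.sqrt ((X / PS.N b : ℕ) : ℝ)) := add_le_add h10 h3
          _ ≤ (ε / 4 * X + C * Real.sqrt X) + (ε / 4 * X + 3 * C * Real.sqrt X) := by
                linarith
          _ = ε / 2 * X + 4 * C * Real.sqrt X := by ring
  obtain ⟨M, hM⟩ := exists_nat_gt ((2 * (4 * C) / ε) ^ 2)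
  refine ⟨M, fun X hX => (h2 X).trans ?_⟩
  have h6 : 2 * (4 * C) / ε ≤ Real.sqrt X := by
    apply Real.le_sqrt_of_sq_le
    have : (M : ℝ) ≤ X := by exact_mod_cast hX
    linarith
  have h7 : 4 * C * Real.sqrt X ≤ ε / 2 * X := by
    rw [div_le_iff₀ hε] at h6
    have h8 : Real.sqrt X * Real.sqrt X = X := Real.mul_self_sqrt (Nat.cast_nonneg X)
    nlinarith [Real.sqrt_nonneg (X : ℝ)]
  linarith

theorem MzR.of_empty {f : ι → ℝ} (hf : ∀ q, |f q| ≤ 1) (h : MzR f ∅) (B : Finset ι) :
    MzR f B := by
  induction B using Finset.induction_on with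
  | empty => exact h
  | insert b B hb ih => exact ih.insert hf hb

end

end Pool.Agent.Lib.MP_1a91b9_ntP
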