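import Pool.Agent.Lib.MP_1a91b9_ntE.R.OK
import Pool.Agent.Lib.MP_1a91b9_ntP.D.Defs
import Pool.Agent.Lib.MP_1a91b9_ntP.D.Mz

/-!
# MP_1a91b9_nt, several twists over `Q(sqrt -3)`, part D: the primes outside a finite set

The additional characters are the symbol of `2` and the symbols of the primes of `B`.
-/

set_option autoImplicit false
set_option linter.unusedSectionVars false

namespace Pool.Agent.Lib.MP_1a91b9_ntP

open Finset Pool.Agent.Lib.MP_1a91b9_ntH Pool.Agent.Lib.MP_1a91b9_ntE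
open Pool.Agent.Lib.MP_1a91b9_ntQ (Off up dn up_injective sum_up prod_up nm_up up_mem_Sx
  sum_Sx_off cheb_off zt_off charB_off charB_mono spB mem_spB spB_subset disj_spB sum_spB
  disj_up mem_up up_dn dn_up disjoint_up up_empty)

noncomputable section

variable {ι : Type} [DecidableEq ι]

/-- The system of the primes outside `B`. -/
def offG (D : DatE ι) (B : Finset ι) : DatG (Off B) (Unit ⊕ B) where
  s p q := D.s p.1 q.1
  a q := D.a q.1
  g q j := Sum.elim (fun _ => D.g q.1) (fun b => D.s q.1 b.1) j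

theorem lg_offG (D : DatE ι) (B : Finset ι) (e : Unit ⊕ B → ZMod 2) (q : Off B) :
    (offG D B).lg e q = e (Sum.inl ()) * D.g q.1 + ∑ p ∈ spB e, D.s q.1 p := by
  unfold DatG.lg
  rw [Fintype.sum_sum_type, ← sum_spB]
  congr 1
  rw [Fintype.sum_unique]
  rfl

theorem ch_offG (D : DatE ι) (B : Finset ι) (T : Finset (Off B)) (c : F4)
    (e : Unit ⊕ B → ZMod 2) (q : Off B) :
    (offG D B).ch T c e q = D.ch (up T ∪ spB e) c (e (Sum.inl ())) q.1 := by
  have h : q.1 ∈ up T ∪ spB e ↔ q ∈ T := by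
    rw [mem_union, mem_up]
    constructor
    · rintro (⟨_, h⟩ | h)
      · exact h
      · exact absurd (spB_subset e h) q.2
    · intro h
      exact Or.inl ⟨q.2, h⟩
  unfold DatG.ch DatE.ch
  rw [if_congr h rfl rfl, lg_offG, sum_union (disj_spB T e), sum_up]
  have e1 : F4.tr (c * (offG D B).a q) + (e (Sum.inl ()) * D.g q.1 + ∑ p ∈ spB e, D.s q.1 p) +
      ∑ p ∈ T, (offG D B).s q p = F4.tr (c * D.a q.1) + e (Sum.inl ()) * D.g q.1 +
      (∑ p ∈ T, D.s q.1 p.1 + ∑ p ∈ spB e, D.s q.1 p) := by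
    show F4.tr (c * D.a q.1) + _ + ∑ p ∈ T, D.s q.1 p.1 = _
    ring
  rw [e1]

theorem chE_le (D : DatE ι) (T : Finset ι) (c : F4) (e : ZMod 2) (q : ι) :
    |D.ch T c e q| ≤ 1 := by
  unfold DatE.ch
  split_ifs
  · simp
  · rw [sgD_abs]

section

variable [PS ι]

theorem cb_offG {D : DatE ι} {C : ℝ} (h : D.CB C) (B : Finset ι) :
    (offG D B).CB (|C| * (1 + Real.log (nm B)) * (3 / 2) ^ B.card) := by
  intro T c e hTc
  have hne : up T ∪ spB e ≠ ∅ ∨ c ≠ 0 ∨ e (Sum.inl ()) ≠ 0 := by
    by_contra hcon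
    push Not at hcon
    obtain ⟨h1, h2, h3⟩ := hcon
    rw [union_eq_empty] at h1
    rcases hTc with h4 | h4 | h4
    · apply h4
      rw [← dn_up T, h1.1]
      rfl
    · exact h4 h2
    · apply h4
      funext j
      rcases j with j | b
      · exact h3
      · by_contra hb
        have h5 : b.1 ∈ spB e := mem_spB.2 ⟨b.2, hb⟩
        rw [h1.2] at h5
        exact notMem_empty _ h5
  have h1 := charB_off (B := B) (h (up T ∪ spB e) c (e (Sum.inl ())) hne)
  have h2 : (fun q : Off B => D.ch (up T ∪ spB e) c (e (Sum.inl ())) q.1) =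
      (offG D B).ch T c e := by
    funext q
    rw [ch_offG]
  rw [h2] at h1
  refine charB_mono h1 ?_
  have hT1 : (1 : ℝ) ≤ nm T := by exact_mod_cast one_le_nm T
  have hB1 : (1 : ℝ) ≤ nm B := by exact_mod_cast one_le_nm B
  have hS1 : (1 : ℝ) ≤ nm (spB e) := by exact_mod_cast one_le_nm (spB e)
  have hSB : (nm (spB e) : ℝ) ≤ nm B := by
    have h3 : nm (spB e) ≤ nm B := by
      unfold nm
      refine prod_le_prod_of_subset_of_one_le' (spB_subset e) fun q _ _ => ?_
      have := PS.two_le q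
      omega
    exact_mod_cast h3
  have h4 : Real.log (nm (up T ∪ spB e)) ≤ Real.log (nm T) + Real.log (nm B) := by
    rw [nm_union (disj_spB T e), nm_up]
    push_cast
    rw [Real.log_mul (by positivity) (by positivity)]
    have := Real.log_le_log (by linarith) hSB
    linarith
  have h5 : 0 ≤ Real.log (nm T) := Real.log_nonneg hT1
  have h6 : 0 ≤ Real.log (nm B) := Real.log_nonneg hB1
  have h7 : 0 ≤ Real.log (nm (up T ∪ spB e)) :=
    Real.log_nonneg (by exact_mod_cast one_le_nm _)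
  have h8 : C * (1 + Real.log (nm (up T ∪ spB e))) ≤
      |C| * (1 + Real.log (nm B)) * (1 + Real.log (nm T)) := by
    calc C * (1 + Real.log (nm (up T ∪ spB e))) ≤ |C| * (1 + Real.log (nm (up T ∪ spB e))) :=
          mul_le_mul_of_nonneg_right (le_abs_self C) (by linarith)
      _ ≤ |C| * ((1 + Real.log (nm B)) * (1 + Real.log (nm T))) := by
          refine mul_le_mul_of_nonneg_left ?_ (abs_nonneg C)
          nlinarith
      _ = _ := by ring
  have h9 : (0 : ℝ) ≤ (3 / 2) ^ B.card := by positivity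
  calc C * (1 + Real.log (nm (up T ∪ spB e))) * (3 / 2) ^ B.card
      ≤ |C| * (1 + Real.log (nm B)) * (1 + Real.log (nm T)) * (3 / 2) ^ B.card :=
        mul_le_mul_of_nonneg_right h8 h9
    _ = _ := by ring

theorem ss_offG (D : DatE ι) (B : Finset ι) (S T : Finset (Off B)) :
    (offG D B).ss S T = D.ss (up S) (up T) := by
  unfold Dat.ss
  rw [sum_up]
  refine sum_congr rfl fun q _ => ?_
  rw [sum_up]
  rfl

theorem bl_offG {D : DatE ι} {C c : ℝ} {K : ℕ} (h : D.BL C K c) (B : Finset ι) :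
    (offG D B).BL C K c := by
  classical
  intro A A' X V hA hA' hV hX
  set A1 : Finset ι → ℝ := fun S => if Disjoint S B then A (dn B S) else 0 with hA1
  set A2 : Finset ι → ℝ := fun S => if Disjoint S B then A' (dn B S) else 0 with hA2
  have hb1 : ∀ S, |A1 S| ≤ 1 := by
    intro S
    rw [hA1]
    dsimp only
    split_ifs
    · exact hA _
    · rw [abs_zero]; exact zero_le_one
  have hb2 : ∀ S, |A2 S| ≤ 1 := by
    intro S
    rw [hA2]
    dsimp only
    split_ifs
    · exact hA' _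
    · rw [abs_zero]; exact zero_le_one
  have h1 := h A1 A2 X V hb1 hb2 hV hX
  refine le_trans (le_of_eq ?_) h1
  congr 1
  have e1 : ∀ S T : Finset (Off B), (if nm S * nm T ≤ X ∧ V < nm S ∧ V < nm T ∧ Disjoint S T then
      A S * A' T * sg ((offG D B).ss S T) else 0) =
      (fun S T : Finset ι => if nm S * nm T ≤ X ∧ V < nm S ∧ V < nm T ∧ Disjoint S T then
        A1 S * A2 T * sg (D.ss S T) else 0) (up S) (up T) := by
    intro S T
    dsimp only
    refine if_congr ?_ ?_ rfl
    · rw [nm_up, nm_up, disjoint_up]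
    · rw [ss_offG, hA1, hA2]
      dsimp only
      rw [if_pos (disj_up S), if_pos (disj_up T), dn_up, dn_up]
  simp only [e1]
  have e2 : ∀ S : Finset ι, ∑ T ∈ Sx (Off B) X,
      (fun S T : Finset ι => if nm S * nm T ≤ X ∧ V < nm S ∧ V < nm T ∧ Disjoint S T then
        A1 S * A2 T * sg (D.ss S T) else 0) S (up T) =
      ∑ T ∈ Sx ι X, (fun S T : Finset ι => if nm S * nm T ≤ X ∧ V < nm S ∧ V < nm T ∧
        Disjoint S T then A1 S * A2 T * sg (D.ss S T) else 0) S T := by
    intro S
    rw [sum_Sx_off B X fun T => (fun S T : Finset ι => if nm S * nm T ≤ X ∧ V < nm S ∧ V < nm T ∧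
        Disjoint S T then A1 S * A2 T * sg (D.ss S T) else 0) S T, sum_filter]
    refine sum_congr rfl fun T _ => ?_
    by_cases hT : Disjoint T B
    · rw [if_pos hT]
    · rw [if_neg hT]
      have : A2 T = 0 := by
        rw [hA2]
        exact if_neg hT
      dsimp only
      rw [this, mul_zero, zero_mul, ite_self]
  simp only [e2]
  rw [sum_Sx_off B X fun S => ∑ T ∈ Sx ι X, (fun S T : Finset ι => if nm S * nm T ≤ X ∧ V < nm S ∧
      V < nm T ∧ Disjoint S T then A1 S * A2 T * sg (D.ss S T) else 0) S T, sum_filter]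
  refine sum_congr rfl fun S _ => ?_
  by_cases hS : Disjoint S B
  · rw [if_pos hS]
  · rw [if_neg hS]
    have : A1 S = 0 := by
      rw [hA1]
      exact if_neg hS
    refine (sum_eq_zero fun T _ => ?_).symm
    rw [this, zero_mul, zero_mul, ite_self]

/-- **The hypotheses for the primes outside `B`.** -/
theorem offG_OK {D : DatE ι} (hD : D.OK) (B : Finset ι)
    (hm : ∀ (T : Finset ι) (c : F4) (e : ZMod 2), T ⊆ B → (T ≠ ∅ ∨ c ≠ 0 ∨ e ≠ 0) →
      MzR (fun q => D.ch T c e q) ∅) : (offG D B).OK where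
  rec_ p q hpq := hD.rec_ p.1 q.1 fun h => hpq (Subtype.ext h)
  cheb := by
    obtain ⟨C, hC⟩ := hD.cheb
    exact ⟨C, cheb_off hC B⟩
  zt := by
    obtain ⟨C, hC⟩ := hD.zt
    exact ⟨_, zt_off hC B⟩
  cb := by
    obtain ⟨C, hC⟩ := hD.cb
    exact ⟨_, cb_offG hC B⟩
  h3 := by
    intro c e hce ε hε
    have hne : spB e ≠ ∅ ∨ c ≠ 0 ∨ e (Sum.inl ()) ≠ 0 := by
      by_contra hcon
      push Not at hcon
      obtain ⟨h1, h2, h3⟩ := hcon
      rcases hce with h4 | h4
      · exact h4 h2
      · apply h4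
        funext j
        rcases j with j | b
        · exact h3
        · by_contra hb
          have h5 : b.1 ∈ spB e := mem_spB.2 ⟨b.2, hb⟩
          rw [h1] at h5
          exact notMem_empty _ h5
    obtain ⟨X0, h0⟩ := (hm (spB e) c (e (Sum.inl ())) (spB_subset e) hne).of_empty
      (chE_le D _ _ _) B ε hε
    refine ⟨X0, fun X hX => ?_⟩
    refine le_trans (le_of_eq (congrArg abs ?_)) (h0 X hX)
    unfold smB
    rw [← sum_Sx_off]
    refine sum_congr rfl fun S _ => ?_
    rw [prod_up]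
    have h1 : ∀ q : Off B, D.ch (spB e) c (e (Sum.inl ())) q.1 =
        sg (F4.tr (c * (offG D B).a q) + (offG D B).lg e q) := by
      intro q
      have h2 := ch_offG D B ∅ c e q
      rw [up_empty, empty_union] at h2
      rw [← h2, DatG.ch, if_neg (notMem_empty q), sum_empty, add_zero]
    rw [prod_congr rfl fun q _ => h1 q, ← sgD_sum, sum_add_distrib, ← trD_sum, ← mul_sum]
    rfl
  bl := by
    obtain ⟨C, K, c, hc, hC⟩ := hD.bl
    exact ⟨C, K, c, hc, bl_offG hC B⟩

end

end

end Pool.Agent.Lib.MP_1a91b9_ntP
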