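import Pool.Agent.Lib.MP_1a91b9_ntP.D.Off

/-!
# MP_1a91b9_nt, several twists over `Q(sqrt -3)`, part D: the system of the primary primes outside
a finite set
-/

set_option autoImplicit false

namespace Pool.Agent.Lib.MP_1a91b9_ntP

open NumberField Finset Pool.Agent.Lib.MP_1a91b9_ntT Pool.Agent.Lib.MP_1a91b9_ntH
  Pool.Agent.Lib.MP_1a91b9_ntE

noncomputable section

theorem chE_DD' (T : Finset Pq) (c : F4) (d : ZMod 2) (S : Finset Pq) :
    chE T c d (DD S) = ∏ q ∈ S, qE.ch T c d q := by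
  induction S using Finset.induction_on with
  | empty => rw [DD_empty, (chE_mulP T c d).one, prod_empty]
  | insert q S hq ih =>
    rw [DD_insert hq, (chE_mulP T c d).mul _ _ q.inP (DD_inP S), ih, prod_insert hq, chE_q]
    rfl

theorem qE_mz (T : Finset Pq) (c : F4) (d : ZMod 2) (h : T ≠ ∅ ∨ c ≠ 0 ∨ d ≠ 0) :
    MzR (fun q => qE.ch T c d q) ∅ := by
  intro ε hε
  obtain ⟨X₀, h1⟩ := mean_zeroP (chE T c d) (chE_mulP T c d)
    (B := 20 * Real.sqrt (192 * nm T : ℕ)) (by positivity) (fun X hX => by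
      refine (chE_sum T c d h X hX).trans (le_of_eq ?_)
      rw [mul_assoc, Real.sqrt_mul (Nat.cast_nonneg _)]) ε hε
  refine ⟨X₀, fun X hX => ?_⟩
  refine le_trans (le_of_eq (congrArg abs ?_)) (h1 X hX)
  unfold smB
  refine sum_congr ?_ fun S _ => (chE_DD' T c d S).symm
  ext S
  rw [mem_filter]
  exact ⟨fun h => h.1, fun h => ⟨h, disjoint_empty_right S⟩⟩

/-- **The hypotheses of the engine.** -/
theorem qG_OK (B : Finset Pq) : (offG qE B).OK :=
  offG_OK qE_OK B fun T c e _ h => qE_mz T c e h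

end

end Pool.Agent.Lib.MP_1a91b9_ntP
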