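import Pool.Agent.Lib.MP_1a91b9_ntP.D.Defs
import Pool.Agent.Lib.MP_1a91b9_ntH.D.Fourier
import Pool.Agent.Lib.MP_1a91b9_ntH.D.FamProd

/-!
# Even classes, part D: the inner sum

The sum over the families supported on an unlinked set is a sum of products (model: phase 1,
`D/Inner.lean`); the local factor contains the additional character.
-/

set_option autoImplicit false
set_option linter.unusedSectionVars false

namespace Pool.Agent.Lib.MP_1a91b9_ntP

open Finset Pool.Agent.Lib.MP_1a91b9_ntH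

noncomputable section

variable {ι : Type} [DecidableEq ι] {κ : Type} [Fintype κ] {L : Type} [Fintype L] [DecidableEq L]

/-- The local factor of the inner sum. -/
def DatG.Hq (D : DatG ι κ) (Λ : LSysG L κ) (U : Finset L) (b : L → Finset ι) (h : L → F4) (q : ι) : ℝ :=
  (∑ l ∈ U, sg (F4.tr (h l * D.a q) + D.lg (Λ.del l) q +
    ∑ m, (Λ.Phi l m * D.ss {q} (b m) + Λ.Phi m l * D.ss (b m) {q}))) / Λ.m

omit [DecidableEq ι] in
private theorem inner_ss_left (D : DatG ι κ) (S T : Finset ι) : D.ss S T = ∑ q ∈ S, D.ss {q} T := by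
  unfold Dat.ss
  refine sum_congr rfl fun q _ => ?_
  rw [sum_singleton]

omit [DecidableEq ι] in
private theorem inner_ss_right (D : DatG ι κ) (S T : Finset ι) : D.ss S T = ∑ q ∈ T, D.ss S {q} := by
  unfold Dat.ss
  rw [sum_comm]
  refine sum_congr rfl fun q _ => ?_
  refine sum_congr rfl fun p _ => ?_
  rw [sum_singleton]

omit [DecidableEq ι] [DecidableEq L] in
private theorem inner_cross (D : DatG ι κ) (Λ : LSysG L κ) (b d : L → Finset ι) :
    ∑ l, ∑ m, Λ.Phi l m * (D.ss (b l) (d m) + D.ss (d l) (b m)) =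
      ∑ l, ∑ q ∈ d l, ∑ m, (Λ.Phi l m * D.ss {q} (b m) + Λ.Phi m l * D.ss (b m) {q}) := by
  have h1 : ∑ l, ∑ m, Λ.Phi l m * (D.ss (b l) (d m) + D.ss (d l) (b m)) =
      ∑ l, ∑ m, Λ.Phi m l * D.ss (b m) (d l) + ∑ l, ∑ m, Λ.Phi l m * D.ss (d l) (b m) := by
    rw [sum_comm (f := fun l m => Λ.Phi m l * D.ss (b m) (d l)), ← sum_add_distrib]
    refine sum_congr rfl fun l _ => ?_
    rw [← sum_add_distrib]
    exact sum_congr rfl fun m _ => mul_add _ _ _
  rw [h1, ← sum_add_distrib]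
  refine sum_congr rfl fun l _ => ?_
  rw [← sum_add_distrib, sum_comm]
  refine sum_congr rfl fun m _ => ?_
  rw [sum_add_distrib, ← mul_sum, ← mul_sum, ← inner_ss_left, ← inner_ss_right, add_comm]

private theorem inner_uni (b d : L → Finset ι) : uni (fun l => b l ∪ d l) = uni b ∪ uni d := by
  ext q
  rw [mem_union, mem_uni, mem_uni, mem_uni]
  constructor
  · rintro ⟨l, hl⟩
    rcases mem_union.1 hl with h | h
    · exact Or.inl ⟨l, h⟩
    · exact Or.inr ⟨l, h⟩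
  · rintro (⟨l, h⟩ | ⟨l, h⟩)
    · exact ⟨l, mem_union_left _ h⟩
    · exact ⟨l, mem_union_right _ h⟩

omit [DecidableEq L] in
private theorem inner_card {d : L → Finset ι} (h : PD d) : (uni d).card = ∑ l, (d l).card := by
  unfold uni
  exact card_biUnion fun l _ m _ hlm => h l m hlm

theorem xx_union (D : DatG ι κ) (Λ : LSysG L κ) (b d : L → Finset ι) (h : Disjoint (uni b) (uni d)) :
    D.xx Λ (fun l => b l ∪ d l) = D.xx Λ b + D.xx Λ d := by
  have hdis : ∀ l, Disjoint (b l) (d l) := fun l =>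
    disjoint_of_subset_left (sub_uni b l) (disjoint_of_subset_right (sub_uni d l) h)
  unfold DatG.xx
  rw [← sum_add_distrib]
  refine sum_congr rfl fun l _ => ?_
  exact lG_union D _ (hdis l)

private theorem inner_term (D : DatG ι κ) (hD : D.Rec) (Λ : LSysG L κ) (hΛ : Λ.OK) (U : Finset L)
    (hU : Λ.Unl U) (b : L → Finset ι) (S : Finset ι) (hS : Disjoint S (uni b))
    (d : L → Finset ι) (hd : d ∈ FamU U S) :
    D.FF Λ (fun l => b l ∪ d l) =
      ((Λ.m : ℝ)⁻¹) ^ (uni b).card * sg (D.ee Λ b) *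
        ∑ h : L → F4, Λ.gh U h * ∏ l, ∏ q ∈ d l, ((Λ.m : ℝ)⁻¹ * sg (F4.tr (h l * D.a q) + D.lg (Λ.del l) q +
          ∑ m, (Λ.Phi l m * D.ss {q} (b m) + Λ.Phi m l * D.ss (b m) {q}))) := by
  obtain ⟨h1, h2, h3⟩ := mem_FamU.1 hd
  have h4 : Disjoint (uni b) (uni d) := by
    rw [h2]
    exact hS.symm
  have h5 : ∀ h : L → F4, ∏ l, ∏ q ∈ d l, ((Λ.m : ℝ)⁻¹ * sg (F4.tr (h l * D.a q) + D.lg (Λ.del l) q +
          ∑ m, (Λ.Phi l m * D.ss {q} (b m) + Λ.Phi m l * D.ss (b m) {q}))) =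
      ((Λ.m : ℝ)⁻¹) ^ (uni d).card * (sg (∑ l, F4.tr (h l * D.A (d l))) * sg (D.xx Λ d) *
        sg (∑ l, ∑ q ∈ d l, ∑ m, (Λ.Phi l m * D.ss {q} (b m) + Λ.Phi m l * D.ss (b m) {q}))) := by
    intro h
    have h6 : ∀ l, F4.tr (h l * D.A (d l)) = ∑ q ∈ d l, F4.tr (h l * D.a q) := by
      intro l
      unfold Dat.A
      rw [mul_sum, trD_sum]
    rw [← sgD_add, ← sgD_add, DatG.xx, inner_card h1, ← sum_add_distrib, ← sum_add_distrib, sgD_sum,
      ← prod_pow_eq_pow_sum, ← prod_mul_distrib]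
    refine prod_congr rfl fun l _ => ?_
    rw [prod_mul_distrib, prod_const, h6, DatG.lG, ← sum_add_distrib, ← sum_add_distrib, sgD_sum]
  unfold DatG.FF DatG.ee
  rw [inner_uni, card_union_of_disjoint h4, pow_add, xx_union D Λ b d h4,
    ee_union D.toDat Λ.toLSys b d h4,
    ee_unl D.toDat hD Λ.toLSys hΛ U hU d h1 h3, inner_cross, sgD_add, sgD_add, sgD_add, sgD_add,
    sgD_add, Pool.Agent.Lib.MP_1a91b9_ntH.fourier]
  rw [sum_congr rfl fun h _ => congrArg (fun t => Λ.gh U h * t) (h5 h)]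
  generalize sg (∑ l, ∑ q ∈ d l, ∑ m, (Λ.Phi l m * D.ss {q} (b m) + Λ.Phi m l * D.ss (b m) {q})) = k
  have h7 : ∑ h : L → F4, Λ.gh U h * (((Λ.m : ℝ)⁻¹) ^ (uni d).card *
        (sg (∑ l, F4.tr (h l * D.A (d l))) * sg (D.xx Λ d) * k)) =
      ((Λ.m : ℝ)⁻¹) ^ (uni d).card * sg (D.xx Λ d) * k *
        ∑ h : L → F4, Λ.gh U h * sg (∑ l, F4.tr (h l * D.A (d l))) := by
    rw [mul_sum]
    refine sum_congr rfl fun h _ => ?_
    ring
  rw [h7]
  ring

theorem inner_eq (D : DatG ι κ) (hD : D.Rec) (Λ : LSysG L κ) (hΛ : Λ.OK) (U : Finset L) (hU : Λ.Unl U)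
    (b : L → Finset ι) (hb : PD b) (hbU : ∀ l ∈ U, b l = ∅) (S : Finset ι)
    (hS : Disjoint S (uni b)) :
    ∑ d ∈ FamU U S, D.FF Λ (fun l => b l ∪ d l) =
      ((Λ.m : ℝ)⁻¹) ^ (uni b).card * sg (D.ee Λ b) *
        ∑ h : L → F4, Λ.gh U h * ∏ q ∈ S, D.Hq Λ U b h q := by
  rw [sum_congr rfl (inner_term D hD Λ hΛ U hU b S hS), ← mul_sum, sum_comm]
  congr 1
  refine sum_congr rfl fun h _ => ?_
  rw [← mul_sum, famU_prod U S (fun l q => (Λ.m : ℝ)⁻¹ * sg (F4.tr (h l * D.a q) + D.lg (Λ.del l) q +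
    ∑ m, (Λ.Phi l m * D.ss {q} (b m) + Λ.Phi m l * D.ss (b m) {q})))]
  congr 1
  refine prod_congr rfl fun q _ => ?_
  unfold DatG.Hq
  rw [← mul_sum, div_eq_inv_mul]

end

end Pool.Agent.Lib.MP_1a91b9_ntP
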