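import Pool.Agent.Lib.MP_1a91b9_ntH.D.DivLog
import Pool.Agent.Lib.MP_1a91b9_ntP.D.HBound

/-!
# Even classes, part D: bound for the inner sum with a nontrivial small family
-/

set_option autoImplicit false
set_option linter.unusedSectionVars false

namespace Pool.Agent.Lib.MP_1a91b9_ntP

open Finset Pool.Agent.Lib.MP_1a91b9_ntH

noncomputable section

variable {ι : Type} [DecidableEq ι] [PS ι] {κ : Type} [Fintype κ] {L : Type} [Fintype L] [DecidableEq L]

private theorem innerB_nm_mono {S T : Finset ι} (h : S ⊆ T) : nm S ≤ nm T := by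
  have h1 := nm_union (S := S) (T := T \ S) Finset.disjoint_sdiff
  rw [Finset.union_sdiff_of_subset h] at h1
  rw [h1]
  exact Nat.le_mul_of_pos_right _ (one_le_nm _)

private theorem innerB_ch (D : DatG ι κ) (T : Finset ι) (c : F4) (e : κ → ZMod 2) (q : ι) :
    |D.ch T c e q| ≤ 1 := by
  unfold DatG.ch
  split_ifs
  · simp
  · rw [sgD_abs]

open Classical in
theorem inner_nontriv (D : DatG ι κ) (hD : D.OK) (Λ : LSysG L κ) (hΛ : Λ.OK) :
    ∃ C : ℝ, 0 < C ∧ ∀ U ∈ Λ.Us, ∀ V : ℕ, 1 ≤ V → ∀ b ∈ SmB ι V U, uni b ≠ ∅ → ∀ Y : ℕ, 2 ≤ Y →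
      |∑ S ∈ (Sx ι Y).filter (fun S => Disjoint S (uni b)), ∑ d ∈ FamU U S,
        D.FF Λ (fun l => b l ∪ d l)| ≤
        C * Y * Real.log Y ^ (-(1 / (Λ.m : ℝ))) * (1 + Real.log V) := by
  obtain ⟨C1, hC1⟩ := hD.cheb
  obtain ⟨C2, hC2⟩ := hD.zt
  obtain ⟨C3, hC3⟩ := hD.cb
  obtain ⟨K, hK, hub⟩ := ub hC1 hC2 Λ.m hΛ.two
  have hm2 : (2 : ℝ) ≤ Λ.m := by exact_mod_cast hΛ.two
  have hm0 : (0 : ℝ) < Λ.m := by linarith
  set N : ℝ := ((Fintype.card (L → F4) : ℕ) : ℝ) with hN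
  have hN0 : 0 ≤ N := by rw [hN]; positivity
  refine ⟨N * K * ((|C3| + 1) * (1 + Fintype.card L)) + 1, by positivity, ?_⟩
  intro U hU V hV b hb hne Y hY
  rw [mem_SmB] at hb
  obtain ⟨hbV, hbPD, hbU⟩ := hb
  have hUU := (Λ.mem_Us U).1 hU
  have hYr : (2 : ℝ) ≤ Y := by exact_mod_cast hY
  have hlogY : 0 < Real.log Y := Real.log_pos (by linarith)
  have hVr : (1 : ℝ) ≤ V := by exact_mod_cast hV
  have hlogV : 0 ≤ Real.log V := Real.log_nonneg hVr
  -- rewriting the inner sums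
  have e1 : ∑ S ∈ (Sx ι Y).filter (fun S => Disjoint S (uni b)), ∑ d ∈ FamU U S,
      D.FF Λ (fun l => b l ∪ d l) =
      ((Λ.m : ℝ)⁻¹) ^ (uni b).card * sg (D.ee Λ b) * ∑ h : L → F4, Λ.gh U h *
        ∑ S ∈ (Sx ι Y).filter (fun S => Disjoint S (uni b)), ∏ q ∈ S, D.Hq Λ U b h q := by
    rw [Finset.sum_congr rfl fun S hS => inner_eq D hD.rec_ Λ hΛ U hUU.1 b hbPD hbU S
      (Finset.mem_filter.1 hS).2, ← Finset.mul_sum, Finset.sum_comm]
    congr 1
    refine Finset.sum_congr rfl fun h _ => ?_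
    rw [Finset.mul_sum]
  -- the bound for one `h`
  have key : ∀ h : L → F4, |∑ S ∈ (Sx ι Y).filter (fun S => Disjoint S (uni b)),
      ∏ q ∈ S, D.Hq Λ U b h q| ≤ K * Y * Real.log Y ^ (-(1 / (Λ.m : ℝ))) *
        (((|C3| + 1) * (1 + Fintype.card L)) * (1 + Real.log V)) := by
    intro h
    obtain ⟨T, c, e, hT0, hTs, hTb⟩ := Hq_bound D hD.rec_ Λ hΛ U hU b hbPD hbU hne h
    have hch := hC3 T c e (Or.inl hT0)
    set w : ι → ℝ := fun q => if q ∈ uni b then 0 else |D.Hq Λ U b h q| with hw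
    have hw0 : ∀ q, 0 ≤ w q ∧ w q ≤ ((Λ.m - 1 : ℝ) + D.ch T c e q) / Λ.m := by
      intro q
      have h1 := (abs_le.1 (innerB_ch D T c e q)).1
      simp only [hw]
      split_ifs with hq
      · exact ⟨le_rfl, div_nonneg (by linarith) hm0.le⟩
      · exact ⟨abs_nonneg _, hTb q hq⟩
    have h2 := hub _ _ hch w hw0 Y hY
    have h3 : |∑ S ∈ (Sx ι Y).filter (fun S => Disjoint S (uni b)), ∏ q ∈ S, D.Hq Λ U b h q| ≤
        ∑ S ∈ Sx ι Y, ∏ q ∈ S, w q := by
      refine (Finset.abs_sum_le_sum_abs _ _).trans ?_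
      have h4 : ∀ S ∈ (Sx ι Y).filter (fun S => Disjoint S (uni b)),
          |∏ q ∈ S, D.Hq Λ U b h q| = ∏ q ∈ S, w q := by
        intro S hS
        rw [Finset.abs_prod]
        refine Finset.prod_congr rfl fun q hq => ?_
        simp only [hw]
        rw [if_neg (Finset.disjoint_left.1 (Finset.mem_filter.1 hS).2 hq)]
      rw [Finset.sum_congr rfl h4]
      refine Finset.sum_le_sum_of_subset_of_nonneg (Finset.filter_subset _ _) fun S _ _ => ?_
      exact Finset.prod_nonneg fun q _ => (hw0 q).1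
    refine h3.trans (h2.trans ?_)
    refine mul_le_mul_of_nonneg_left ?_ (by positivity)
    set B : ℝ := C3 * (1 + Real.log (nm T)) with hB
    have hB1 : 1 ≤ B := hch.hB
    have h5 : B ^ (1 / (Λ.m : ℝ)) ≤ B := by
      calc B ^ (1 / (Λ.m : ℝ)) ≤ B ^ (1 : ℝ) :=
            Real.rpow_le_rpow_of_exponent_le hB1 (by
              rw [div_le_one hm0]
              linarith)
        _ = B := Real.rpow_one B
    refine h5.trans ?_
    have hTn : (1 : ℝ) ≤ nm T := by exact_mod_cast one_le_nm T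
    have h6 : Real.log (nm T) ≤ Fintype.card L * Real.log V := by
      have h7 : nm T ≤ V ^ Fintype.card L := by
        refine (innerB_nm_mono hTs).trans ?_
        rw [nm_uni hbPD]
        exact nmf_le_pow (U := U) (mem_SmB.2 ⟨hbV, hbPD, hbU⟩)
      have h8 : (nm T : ℝ) ≤ (V : ℝ) ^ Fintype.card L := by exact_mod_cast h7
      have h9 := Real.log_le_log (by linarith) h8
      rwa [Real.log_pow] at h9
    have h10 : 0 ≤ Real.log (nm T) := Real.log_nonneg hTn
    have hcL : (0 : ℝ) ≤ Fintype.card L := Nat.cast_nonneg _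
    calc B ≤ (|C3| + 1) * (1 + Real.log (nm T)) := by
          rw [hB]
          refine mul_le_mul_of_nonneg_right ?_ (by linarith)
          have := le_abs_self C3
          linarith
      _ ≤ (|C3| + 1) * (1 + Fintype.card L * Real.log V) := by
          refine mul_le_mul_of_nonneg_left (by linarith) (by positivity)
      _ ≤ (|C3| + 1) * ((1 + Fintype.card L) * (1 + Real.log V)) := by
          refine mul_le_mul_of_nonneg_left ?_ (by positivity)
          nlinarith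
      _ = _ := by ring
  rw [e1, abs_mul, abs_mul, sgD_abs, mul_one]
  have hmi : |((Λ.m : ℝ)⁻¹) ^ (uni b).card| ≤ 1 := by
    rw [abs_of_nonneg (by positivity)]
    refine pow_le_one₀ (by positivity) ?_
    exact inv_le_one_of_one_le₀ (by linarith)
  have hsum : |∑ h : L → F4, Λ.gh U h * ∑ S ∈ (Sx ι Y).filter (fun S => Disjoint S (uni b)),
      ∏ q ∈ S, D.Hq Λ U b h q| ≤ N * (K * Y * Real.log Y ^ (-(1 / (Λ.m : ℝ))) *
        (((|C3| + 1) * (1 + Fintype.card L)) * (1 + Real.log V))) := by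
    refine (Finset.abs_sum_le_sum_abs _ _).trans ?_
    rw [hN, ← Finset.card_univ, ← nsmul_eq_mul]
    refine Finset.sum_le_card_nsmul _ _ _ fun h _ => ?_
    rw [abs_mul]
    calc _ ≤ 1 * _ := mul_le_mul_of_nonneg_right (gh_abs Λ.toLSys U h) (abs_nonneg _)
      _ = _ := one_mul _
      _ ≤ _ := key h
  have hE : 0 ≤ (Y : ℝ) * Real.log Y ^ (-(1 / (Λ.m : ℝ))) * (1 + Real.log V) := by positivity
  calc _ ≤ 1 * _ := mul_le_mul_of_nonneg_right hmi (abs_nonneg _)
    _ = _ := one_mul _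
    _ ≤ _ := hsum
    _ = (N * K * ((|C3| + 1) * (1 + Fintype.card L))) *
        (Y * Real.log Y ^ (-(1 / (Λ.m : ℝ))) * (1 + Real.log V)) := by ring
    _ ≤ (N * K * ((|C3| + 1) * (1 + Fintype.card L)) + 1) *
        (Y * Real.log Y ^ (-(1 / (Λ.m : ℝ))) * (1 + Real.log V)) := by
        refine mul_le_mul_of_nonneg_right (by linarith) hE
    _ = _ := by ring

end

end Pool.Agent.Lib.MP_1a91b9_ntP
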